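import Mathlib
import Pool.Agent.R479.DA.Frac

/-!
# The inequality `T < 1` at the approximations of a real number

For `0 ≤ η < 2` and `τ > 0` the real numbers `ξ` with infinitely many fractions `p / q` in lowest
terms in `(0, 1)` such that `|ξ - p / q| ≤ q ^ (-τ)` and `T(p, q - p, q) ≥ - η √(log q) - K / √(log q)`
form a set of Hausdorff dimension at most `f (η) / τ`.  For `η = 0` this is `15 / (28 τ)`: the
inequality `T < 1` of the question, even `T < 0`, holds for all but finitely many of the convergents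
of all `ξ` outside a set of dimension at most `15 / 56`.  For almost all `ξ` and all `ε > 0` all but
finitely many convergents have `rad (p (q - p) q) > q ^ (3 - ε)`.
-/

set_option autoImplicit false

namespace Pool.Agent.Results.MP_4ab349_nt.Approximations

open Filter Topology

/-- the product of the primes dividing `n` -/
def rad (n : ℕ) : ℕ := ∏ p ∈ n.primeFactors, p

/-- `T(a, b, c) = log (c / rad(abc)) / √(log c)` -/
noncomputable def T (a b c : ℕ) : ℝ :=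
  Real.log ((c : ℝ) / (rad (a * b * c) : ℝ)) / Real.sqrt (Real.log c)

/-- the fraction `t.1 / t.2` in lowest terms and in `(0, 1)` approximates `ξ` with exponent `τ` -/
def Approximates (τ ξ : ℝ) (t : ℕ × ℕ) : Prop :=
  0 < t.1 ∧ t.1 < t.2 ∧ Nat.Coprime t.1 t.2 ∧ |ξ - (t.1 : ℝ) / t.2| ≤ (t.2 : ℝ) ^ (-τ)

/-- the abc-triple `(p, q - p, q)` of the fraction `p / q = t.1 / t.2` satisfies
`T < - η √(log q) - K / √(log q)` -/
def Good (η K : ℝ) (t : ℕ × ℕ) : Prop :=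
  T t.1 (t.2 - t.1) t.2 < - η * Real.sqrt (Real.log t.2) - K / Real.sqrt (Real.log t.2)

/-- increasing from `15 / 28` for `η = 0` to `2` for `η = 2` -/
noncomputable def f (η : ℝ) : ℝ :=
  if η ≤ 0 then 15 / 28 else if η ≤ 1 / 2 then 5 * (10 * η + 9) / 84
  else if η ≤ 7 / 9 then (9 * η + 8) / 15 else if η ≤ 1 then 1 else η

lemma Fx_eq (η : ℝ) (h0 : 0 ≤ η) : Pool.Agent.W221.ABC7.Fx (1 + η) = f η := by
  unfold Pool.Agent.W221.ABC7.Fx f
  rcases h0.eq_or_lt with h | h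
  · subst h
    norm_num
  rw [if_neg (show ¬ (1 + η ≤ 2 / 3) by linarith), if_neg (show ¬ (1 + η ≤ 1) by linarith),
    if_neg (show ¬ (η ≤ 0) by linarith)]
  by_cases h2 : η ≤ 1 / 2
  · rw [if_pos (show 1 + η ≤ 3 / 2 by linarith), if_pos h2]
    ring
  rw [if_neg (show ¬ (1 + η ≤ 3 / 2) by linarith), if_neg h2]
  by_cases h3 : η ≤ 7 / 9
  · rw [if_pos (show 1 + η ≤ 16 / 9 by linarith), if_pos h3]
    ring
  rw [if_neg (show ¬ (1 + η ≤ 16 / 9) by linarith), if_neg h3]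
  by_cases h4 : η ≤ 1
  · rw [if_pos (show 1 + η ≤ 2 by linarith), if_pos h4]
  rw [if_neg (show ¬ (1 + η ≤ 2) by linarith), if_neg h4]
  ring

lemma rad_pos (n : ℕ) : 0 < rad n :=
  Finset.prod_pos fun _ hp => (Nat.prime_of_mem_primeFactors hp).pos

/-- outside a set of dimension at most `f (η) / τ` only finitely many approximations are bad -/
theorem part_one (η K τ : ℝ) (hη : 0 ≤ η) (hτ : 0 < τ) :
    ∃ E : Set ℝ, dimH E ≤ ENNReal.ofReal (f η / τ) ∧
      ∀ ξ : ℝ, ξ ∉ E → {t : ℕ × ℕ | Approximates τ ξ t ∧ ¬ Good η K t}.Finite := by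
  have h := Pool.Agent.R479.DA.dim_sm (Real.exp K) (1 + η) τ (by positivity) hτ
  rw [Fx_eq η hη] at h
  refine ⟨_, h, fun ξ hξ => ?_⟩
  rw [Set.mem_ofPred_eq, Set.not_infinite] at hξ
  refine hξ.subset ?_
  rintro ⟨p, q⟩ ⟨⟨h1, h2, h3, h4⟩, h5⟩
  simp only at h1 h2 h3 h4
  refine ⟨⟨h1, h2, h3, ?_⟩, h4⟩
  simp only
  by_contra hcon
  push Not at hcon
  apply h5
  have hq : (1 : ℝ) < (q : ℝ) := by exact_mod_cast (by omega : 1 < q)
  have hq0 : (0 : ℝ) < (q : ℝ) := by linarith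
  have hl : 0 < Real.log (q : ℝ) := Real.log_pos hq
  have hs : 0 < Real.sqrt (Real.log (q : ℝ)) := Real.sqrt_pos.mpr hl
  have hr : (0 : ℝ) < (rad (p * (q - p) * q) : ℝ) := by exact_mod_cast rad_pos _
  have hbig : Real.exp K * (q : ℝ) ^ (1 + η) < (rad (p * (q - p) * q) : ℝ) := by
    rw [show p * q * (q - p) = p * (q - p) * q by ring] at hcon
    exact hcon
  have h6 := Real.log_lt_log (by positivity) hbig
  rw [Real.log_mul (Real.exp_pos K).ne' (Real.rpow_pos_of_pos hq0 _).ne', Real.log_exp,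
    Real.log_rpow hq0] at h6
  unfold Good T
  simp only
  rw [Real.log_div hq0.ne' hr.ne', div_lt_iff₀ hs]
  have hss : Real.sqrt (Real.log (q : ℝ)) * Real.sqrt (Real.log (q : ℝ)) =
      Real.log (q : ℝ) := Real.mul_self_sqrt hl.le
  have h7 : (-η * Real.sqrt (Real.log (q : ℝ)) - K / Real.sqrt (Real.log (q : ℝ))) *
      Real.sqrt (Real.log (q : ℝ)) = -η * Real.log (q : ℝ) - K := by
    rw [sub_mul, div_mul_cancel₀ _ hs.ne', mul_assoc, hss]
  rw [h7]
  linarith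

/-- `T` is at least `1` -/
def Violation (t : ℕ × ℕ) : Prop := 1 ≤ T t.1 (t.2 - t.1) t.2

lemma not_good_of_violation {t : ℕ × ℕ} (h : Violation t) : ¬ Good 0 0 t := by
  intro hg
  unfold Good at hg
  unfold Violation at h
  rw [neg_zero, zero_mul, zero_div, sub_zero] at hg
  linarith

/-- the violations of the question -/
theorem part_two : ∃ E : Set ℝ, dimH E ≤ ENNReal.ofReal (15 / 56) ∧
    ∀ ξ : ℝ, ξ ∉ E → {t : ℕ × ℕ | Approximates 2 ξ t ∧ Violation t}.Finite := by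
  obtain ⟨E, h1, h2⟩ := part_one 0 0 2 le_rfl two_pos
  refine ⟨E, ?_, fun ξ hξ => (h2 ξ hξ).subset fun t ht => ⟨ht.1, not_good_of_violation ht.2⟩⟩
  have h3 : f 0 / 2 = 15 / 56 := by
    unfold f
    rw [if_pos le_rfl]
    norm_num
  rw [h3] at h1
  exact h1

lemma Approximates.mono {τ τ' ξ : ℝ} {t : ℕ × ℕ} (h : Approximates τ ξ t) (hτ : τ' ≤ τ) :
    Approximates τ' ξ t := by
  obtain ⟨h1, h2, h3, h4⟩ := h
  refine ⟨h1, h2, h3, h4.trans (Real.rpow_le_rpow_of_exponent_le ?_ (by linarith))⟩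
  have : 1 ≤ t.2 := by omega
  exact_mod_cast this

/-- a set of dimension less than one is a null set -/
lemma null_of_dim {E : Set ℝ} {d : ℝ} (hd : d < 1) (h : dimH E ≤ ENNReal.ofReal d) :
    MeasureTheory.volume E = 0 := by
  have h1 : dimH E < 1 := lt_of_le_of_lt h (by
    rw [show (1 : ENNReal) = ENNReal.ofReal 1 by simp]
    exact (ENNReal.ofReal_lt_ofReal_iff one_pos).2 hd)
  have h2 : MeasureTheory.Measure.hausdorffMeasure ((1 : NNReal) : ℝ) E = 0 :=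
    hausdorffMeasure_of_dimH_lt (by simpa using h1)
  rw [NNReal.coe_one, MeasureTheory.hausdorffMeasure_real] at h2
  exact h2

/-- almost all numbers -/
theorem part_three : ∀ᵐ ξ : ℝ, ∀ ε : ℝ, 0 < ε → ∀ τ : ℝ, 2 ≤ τ →
    {t : ℕ × ℕ | Approximates τ ξ t ∧
      (rad (t.1 * (t.2 - t.1) * t.2) : ℝ) ≤ (t.2 : ℝ) ^ (3 - ε)}.Finite := by
  have h : ∀ j : ℕ, ∃ E : Set ℝ, MeasureTheory.volume E = 0 ∧
      ∀ ξ : ℝ, ξ ∉ E →
        {t : ℕ × ℕ | Approximates 2 ξ t ∧ ¬ Good (2 - 1 / ((j : ℝ) + 1)) 0 t}.Finite := by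
    intro j
    have hj : (0 : ℝ) < (j : ℝ) + 1 := by positivity
    have hj1 : 1 / ((j : ℝ) + 1) ≤ 1 := by
      rw [div_le_one hj]
      have : (0 : ℝ) ≤ j := Nat.cast_nonneg j
      linarith
    have hj0 : 0 < 1 / ((j : ℝ) + 1) := by positivity
    obtain ⟨E, h1, h2⟩ := part_one (2 - 1 / ((j : ℝ) + 1)) 0 2 (by linarith) two_pos
    refine ⟨E, null_of_dim ?_ h1, h2⟩
    have hf : f (2 - 1 / ((j : ℝ) + 1)) < 2 := by
      unfold f
      split_ifs <;> linarith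
    linarith
  choose E hE hgood using h
  have hnull : MeasureTheory.volume (⋃ j, E j) = 0 := MeasureTheory.measure_iUnion_null hE
  rw [Filter.eventually_iff, MeasureTheory.mem_ae_iff]
  refine MeasureTheory.measure_mono_null ?_ hnull
  intro ξ hξ
  by_contra hcon
  apply hξ
  intro ε hε τ hτ
  obtain ⟨j, hj⟩ := exists_nat_gt (1 / ε)
  have hj' : 1 / ((j : ℝ) + 1) ≤ ε := by
    rw [div_le_iff₀ (by positivity)]
    rw [div_lt_iff₀ hε] at hj
    nlinarith
  have h1 : ξ ∉ E j := fun h => hcon (Set.mem_iUnion.2 ⟨j, h⟩)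
  refine (hgood j ξ h1).subset ?_
  rintro ⟨p, q⟩ ⟨h2, h3⟩
  refine ⟨h2.mono hτ, fun hg => ?_⟩
  obtain ⟨a1, a2, a3, a4⟩ := h2
  simp only at a1 a2 a3 a4 h3
  unfold Good T at hg
  simp only at hg
  have hq : (1 : ℝ) < (q : ℝ) := by exact_mod_cast (by omega : 1 < q)
  have hq0 : (0 : ℝ) < (q : ℝ) := by linarith
  have hl : 0 < Real.log (q : ℝ) := Real.log_pos hq
  have hs : 0 < Real.sqrt (Real.log (q : ℝ)) := Real.sqrt_pos.mpr hl
  have hr : (0 : ℝ) < (rad (p * (q - p) * q) : ℝ) := by exact_mod_cast rad_pos _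
  have hss : Real.sqrt (Real.log (q : ℝ)) * Real.sqrt (Real.log (q : ℝ)) =
      Real.log (q : ℝ) := Real.mul_self_sqrt hl.le
  have h9 : -(2 - 1 / ((j : ℝ) + 1)) * Real.sqrt (Real.log (q : ℝ)) *
      Real.sqrt (Real.log (q : ℝ)) = -(2 - 1 / ((j : ℝ) + 1)) * Real.log (q : ℝ) := by
    rw [mul_assoc, hss]
  rw [zero_div, sub_zero, Real.log_div hq0.ne' hr.ne', div_lt_iff₀ hs, h9] at hg
  have h4 := Real.log_le_log hr h3
  rw [Real.log_rpow hq0] at h4
  nlinarith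

/-- **Theorem.** (1) Let `0 ≤ η < 2`, `τ > 0` and `K` be real.  There is a set `E` of Hausdorff
dimension at most `f (η) / τ` such that for every real `ξ` outside `E` all but finitely many of the
fractions `p / q` in lowest terms in `(0, 1)` with `|ξ - p / q| ≤ q ^ (-τ)` satisfy
`T (p, q - p, q) < - η √(log q) - K / √(log q)`.
(2) For every real `ξ` outside a set of dimension at most `15 / 56` only finitely many of the
fractions with `|ξ - p / q| ≤ q ^ (-2)`, among them the convergents of `ξ`, satisfy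
`T (p, q - p, q) ≥ 1`.
(3) For almost all `ξ`, for all `ε > 0` and `τ ≥ 2`, all but finitely many of the fractions with
`|ξ - p / q| ≤ q ^ (-τ)` satisfy `rad (p (q - p) q) > q ^ (3 - ε)`. -/
theorem result :
    (∀ η K τ : ℝ, 0 ≤ η → η < 2 → 0 < τ → ∃ E : Set ℝ, dimH E ≤ ENNReal.ofReal (f η / τ) ∧
      ∀ ξ : ℝ, ξ ∉ E → {t : ℕ × ℕ | Approximates τ ξ t ∧ ¬ Good η K t}.Finite) ∧
    (∃ E : Set ℝ, dimH E ≤ ENNReal.ofReal (15 / 56) ∧
      ∀ ξ : ℝ, ξ ∉ E → {t : ℕ × ℕ | Approximates 2 ξ t ∧ Violation t}.Finite) ∧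
    (∀ᵐ ξ : ℝ, ∀ ε : ℝ, 0 < ε → ∀ τ : ℝ, 2 ≤ τ →
      {t : ℕ × ℕ | Approximates τ ξ t ∧
        (rad (t.1 * (t.2 - t.1) * t.2) : ℝ) ≤ (t.2 : ℝ) ^ (3 - ε)}.Finite) :=
  ⟨fun η K τ hη _ hτ => part_one η K τ hη hτ, part_two, part_three⟩

end Pool.Agent.Results.MP_4ab349_nt.Approximations
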