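import Pool.Agent.R728.RC.Core
import Pool.Agent.R479.DA.Frac

/-!
# The lower bound for `rad (abc)` and congruences to random residues

Let `𝓜` be a set of moduli with `∑ m ^ (-s) < ∞` (the squareful numbers for `s > 1 / 2`, which
contain the powers `p ^ k`, `k ≥ 2`, of all primes; the powers of one number for `s > 0`), and let
`X m` be random residues modulo `m`, each value of which has probability at most `A m ^ (-θ)`,
`θ > s`. No independence is assumed: for instance the residues of a random profinite integer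
(`θ = 1`), of a random point of a Cantor set of `p`-adic integers of dimension `θ`, or of `[m α]`.
Let `φ m` be any maps from the abc-triples to the residues modulo `m`. If `τ > (15 / 28) / (θ - s)`
then almost surely `T (a, b, c) < 0`, that is `rad (abc) > c`, for all abc-triples with
`φ m (a, c) = X m` for some `m ≥ c ^ τ` in `𝓜`, up to finitely many. More generally
`T (a, b, c) < -η √(log c) - K / √(log c)`, that is `rad (abc) > exp K * c ^ (1 + η)`, if
`f (η) < (θ - s) τ`, with the explicit exponent `f` of the starting files.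
-/

set_option autoImplicit false

namespace Pool.Agent.Results.MP_4ab349_nt.RandomResidues

open MeasureTheory

/-- the product of the primes dividing `n` -/
def rad (n : ℕ) : ℕ := ∏ p ∈ n.primeFactors, p

/-- `T(a, b, c) = log (c / rad(abc)) / √(log c)` -/
noncomputable def T (a b c : ℕ) : ℝ :=
  Real.log ((c : ℝ) / (rad (a * b * c) : ℝ)) / Real.sqrt (Real.log c)

/-- increasing from `15 / 28` for `η = 0` to `1` for `η = 7 / 9`: equal to `5 (10 η + 9) / 84` for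
`η ≤ 1 / 2` and to `(9 η + 8) / 15` for `η > 1 / 2` -/
noncomputable def f (η : ℝ) : ℝ := if η ≤ 1 / 2 then 5 * (10 * η + 9) / 84 else (9 * η + 8) / 15

/-- every prime dividing `m` divides it at least twice -/
def Squareful (m : ℕ) : Prop := 0 < m ∧ ∀ p : ℕ, p.Prime → p ∣ m → p ^ 2 ∣ m

lemma Fx_eq (η : ℝ) (h0 : 0 ≤ η) (h1 : η < 7 / 9) : Pool.Agent.W221.ABC7.Fx (1 + η) = f η := by
  unfold Pool.Agent.W221.ABC7.Fx f
  rcases h0.eq_or_lt with h | h
  · subst h
    norm_num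
  · rw [if_neg (show ¬ (1 + η ≤ 2 / 3) by linarith), if_neg (show ¬ (1 + η ≤ 1) by linarith)]
    by_cases h2 : η ≤ 1 / 2
    · rw [if_pos (show 1 + η ≤ 3 / 2 by linarith), if_pos h2]
      ring
    · rw [if_neg (show ¬ (1 + η ≤ 3 / 2) by linarith), if_pos (show 1 + η ≤ 16 / 9 by linarith), if_neg h2]
      ring

lemma rad_pos (n : ℕ) : 0 < rad n :=
  Finset.prod_pos fun _ hp => (Nat.prime_of_mem_primeFactors hp).pos

/-- the abc-triples `(a, b, c)` (positive, coprime, `a + b = c`), given by `t = (a, c)`, with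
`T (a, b, c) ≥ -η √(log c) - K / √(log c)` -/
def Bad (η K : ℝ) (t : ℕ × ℕ) : Prop :=
  0 < t.1 ∧ t.1 < t.2 ∧ Nat.Coprime t.1 t.2 ∧
    - η * Real.sqrt (Real.log (t.2 : ℝ)) - K / Real.sqrt (Real.log (t.2 : ℝ)) ≤
      T t.1 (t.2 - t.1) t.2

lemma rad_le_of_bad {η K : ℝ} {t : ℕ × ℕ} (h : Bad η K t) :
    (rad (t.1 * (t.2 - t.1) * t.2) : ℝ) ≤ Real.exp K * (t.2 : ℝ) ^ (1 + η) := by
  obtain ⟨h1, h2, h3, h4⟩ := h
  have hc : (1 : ℝ) < (t.2 : ℝ) := by exact_mod_cast (by omega : 1 < t.2)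
  have hc0 : (0 : ℝ) < (t.2 : ℝ) := by linarith
  have hl : 0 < Real.log (t.2 : ℝ) := Real.log_pos hc
  have hs : 0 < Real.sqrt (Real.log (t.2 : ℝ)) := Real.sqrt_pos.mpr hl
  have hr : (0 : ℝ) < (rad (t.1 * (t.2 - t.1) * t.2) : ℝ) := by exact_mod_cast rad_pos _
  by_contra hcon
  push Not at hcon
  have h5 := Real.log_lt_log (by positivity) hcon
  rw [Real.log_mul (Real.exp_pos K).ne' (Real.rpow_pos_of_pos hc0 _).ne', Real.log_exp,
    Real.log_rpow hc0] at h5
  unfold T at h4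
  rw [Real.log_div hc0.ne' hr.ne', le_div_iff₀ hs] at h4
  have hss : Real.sqrt (Real.log (t.2 : ℝ)) * Real.sqrt (Real.log (t.2 : ℝ)) =
      Real.log (t.2 : ℝ) := Real.mul_self_sqrt hl.le
  have h6 : (-η * Real.sqrt (Real.log (t.2 : ℝ)) - K / Real.sqrt (Real.log (t.2 : ℝ))) *
      Real.sqrt (Real.log (t.2 : ℝ)) = -η * Real.log (t.2 : ℝ) - K := by
    rw [sub_mul, div_mul_cancel₀ _ hs.ne', mul_assoc, hss]
  rw [h6] at h4
  linarith

/-- the count of the exceptions, for the theorem on random residues -/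
lemma count_bad {η K : ℝ} (h0 : 0 ≤ η) (h1 : η < 7 / 9) :
    ∀ ε : ℝ, 0 < ε → ∃ C : ℝ, ∀ B : ℝ, 1 ≤ B →
      {t : ℕ × ℕ | t ∈ {t | Bad η K t} ∧ (t.2 : ℝ) ≤ B}.Finite ∧
      (({t : ℕ × ℕ | t ∈ {t | Bad η K t} ∧ (t.2 : ℝ) ≤ B}.ncard : ℕ) : ℝ) ≤
        C * B ^ (f η + ε) := by
  intro ε hε
  obtain ⟨C, hC⟩ := Pool.Agent.R479.DA.sm_count (Real.exp K) (1 + η) (by linarith) ε hε
  refine ⟨C, fun B hB => ?_⟩
  obtain ⟨h2, h3⟩ := hC B hB
  have hsub : {t : ℕ × ℕ | t ∈ {t | Bad η K t} ∧ (t.2 : ℝ) ≤ B} ⊆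
      {t | t ∈ Pool.Agent.R479.DA.Sm (Real.exp K) (1 + η) ∧ (t.2 : ℝ) ≤ B} := by
    rintro ⟨a, c⟩ ⟨h4, h5⟩
    have h6 := rad_le_of_bad h4
    obtain ⟨h7, h8, h9, -⟩ := h4
    refine ⟨⟨h7, h8, h9, ?_⟩, h5⟩
    simp only at h6 ⊢
    rw [show a * c * (c - a) = a * (c - a) * c by ring]
    exact h6
  refine ⟨h2.subset hsub, ?_⟩
  rw [Fx_eq η h0 h1] at h3
  exact le_trans (by exact_mod_cast Set.ncard_le_ncard hsub h2) h3

lemma f_nonneg {η : ℝ} (h0 : 0 ≤ η) : 0 ≤ f η := by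
  unfold f
  split_ifs <;> positivity

/-- **Theorem.** Let `𝓜` be a set of positive integers with a convergent sum of the `m ^ (-s)`, and
`X m` random residues modulo `m`, each value of which has probability at most `A m ^ (-θ)`, where
`s < θ` (no independence is assumed), and `φ m` any maps from the pairs of integers to the residues
modulo `m`; let `0 ≤ η < 7 / 9`, `f η < (θ - s) τ` and `K` real (`f 0 = 15 / 28`). Almost surely

(1) there is `C₀` such that `rad (abc) > c ^ (1 - 1 / √(log c))` for all `m` in `𝓜` and all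
abc-triples with `c > C₀`, `c ^ τ ≤ m` and `φ m (a, c) = X m`;

(2) there are only finitely many pairs of `m` in `𝓜` and an abc-triple with `c ^ τ ≤ m`,
`φ m (a, c) = X m` and `T (a, b, c) ≥ -η √(log c) - K / √(log c)`.

The sum of the `m ^ (-s)` over the squareful numbers converges for `s > 1 / 2`, and that over
the powers of an integer `b ≥ 2` for `s > 0`. -/
theorem result :
    (∀ (𝓜 : Set ℕ) (s θ A : ℝ) (Ω : Type) [MeasurableSpace Ω] (P : Measure Ω)
      (X : ∀ m : ℕ, Ω → ZMod m) (φ : ∀ m : ℕ, ℕ × ℕ → ZMod m) (η τ K : ℝ),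
      (∀ m ∈ 𝓜, 0 < m) → s < θ → (Summable fun m : 𝓜 => ((m : ℕ) : ℝ) ^ (-s)) →
      (∀ m ∈ 𝓜, ∀ r : ZMod m, P {ω | X m ω = r} ≤ ENNReal.ofReal (A * (m : ℝ) ^ (-θ))) →
      0 ≤ η → η < 7 / 9 → f η < (θ - s) * τ →
      ∀ᵐ ω ∂P,
        (∃ C₀ : ℝ, ∀ m ∈ 𝓜, ∀ a b c : ℕ, 0 < a → 0 < b → Nat.Coprime a b → a + b = c →
          C₀ < c → (c : ℝ) ^ τ ≤ m → φ m (a, c) = X m ω →
          (c : ℝ) ^ (1 - 1 / Real.sqrt (Real.log (c : ℝ))) < (rad (a * b * c) : ℝ)) ∧
        {x : ℕ × (ℕ × ℕ) | x.1 ∈ 𝓜 ∧ Bad η K x.2 ∧ (x.2.2 : ℝ) ^ τ ≤ x.1 ∧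
          φ x.1 x.2 = X x.1 ω}.Finite) ∧
    (∀ s : ℝ, 1 / 2 < s → Summable fun m : {m : ℕ | Squareful m} => ((m : ℕ) : ℝ) ^ (-s)) ∧
    ∀ b : ℕ, 2 ≤ b → ∀ s : ℝ, 0 < s →
      Summable fun m : {m : ℕ | ∃ k : ℕ, m = b ^ k} => ((m : ℕ) : ℝ) ^ (-s) := by
  refine ⟨fun 𝓜 s θ A Ω _ P X φ η τ K h0 hs hsum hX hη hη1 hτ => ?_, fun s hs => ?_,
    fun b hb s hs => ?_⟩
  · have h1 : ∀ (η K : ℝ), ∀ t ∈ {t : ℕ × ℕ | Bad η K t}, (1 : ℝ) ≤ (t.2 : ℝ) := by
      rintro η K ⟨a, c⟩ ⟨h2, h3, -⟩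
      simp only at h2 h3 ⊢
      exact_mod_cast (by omega : 1 ≤ c)
    have hf0 : f 0 ≤ f η := by
      unfold f
      split_ifs <;> linarith
    have hfin1 := Pool.Agent.R728.RC.finite_core (H := fun t : ℕ × ℕ => (t.2 : ℝ)) (φ := φ)
      (h1 0 0) (f_nonneg le_rfl) (count_bad le_rfl (by norm_num)) h0 hs hsum hX
      (lt_of_le_of_lt hf0 hτ)
    have hfin2 := Pool.Agent.R728.RC.finite_core (H := fun t : ℕ × ℕ => (t.2 : ℝ)) (φ := φ)
      (h1 η K) (f_nonneg hη) (count_bad hη hη1) h0 hs hsum hX hτ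
    filter_upwards [hfin1, hfin2] with ω hω1 hω2
    refine ⟨?_, hω2⟩
    obtain ⟨C₀, hC⟩ := (hω1.image fun x => (x.2.2 : ℝ)).bddAbove
    refine ⟨C₀, fun m hm a b c ha hb hab habc hc hcm hφ => ?_⟩
    by_contra hcon
    push Not at hcon
    have hc2 : 1 < c := by omega
    have hc1 : (1 : ℝ) < (c : ℝ) := by exact_mod_cast hc2
    have hc0 : (0 : ℝ) < (c : ℝ) := by linarith
    have hl : 0 < Real.log (c : ℝ) := Real.log_pos hc1
    have hsq : 0 < Real.sqrt (Real.log (c : ℝ)) := Real.sqrt_pos.mpr hl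
    have hr : (0 : ℝ) < (rad (a * b * c) : ℝ) := by exact_mod_cast rad_pos _
    have hle : (rad (a * b * c) : ℝ) ≤ c := by
      refine hcon.trans ?_
      calc (c : ℝ) ^ (1 - 1 / Real.sqrt (Real.log (c : ℝ))) ≤ (c : ℝ) ^ (1 : ℝ) := by
            apply Real.rpow_le_rpow_of_exponent_le hc1.le
            have : 0 ≤ 1 / Real.sqrt (Real.log (c : ℝ)) := by positivity
            linarith
        _ = c := Real.rpow_one _
    have hbad : Bad 0 0 (a, c) := by
      refine ⟨ha, by simp only; omega, ?_, ?_⟩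
      · simp only
        rw [← habc]
        simpa using hab
      · simp only
        have hb' : c - a = b := by omega
        rw [hb']
        simp only [neg_zero, zero_mul, zero_div, sub_zero]
        unfold T
        refine div_nonneg (Real.log_nonneg ?_) hsq.le
        rw [le_div_iff₀ hr, one_mul]
        exact hle
    have h2 := hC ⟨(m, (a, c)), ⟨hm, hbad, hcm, hφ⟩, rfl⟩
    simp only at h2
    linarith
  · exact Pool.Agent.R728.RC.summable_squareful hs
  · exact Pool.Agent.R728.RC.summable_powers hb hs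

end Pool.Agent.Results.MP_4ab349_nt.RandomResidues
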