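import Pool.Agent.R909.RandSets
import Pool.Agent.R479.DA.Frac

/-!
# The lower bound for `rad (abc)` in random sets of integers

Let `A` be a random set of positive integers, two different integers `m`, `n` of which occur together
with probability at most `C (m n) ^ (-γ)`, for instance because they are chosen independently with
probabilities `O (n ^ (-γ))`. If `γ > 15 / 56`, almost surely all but finitely many of the
abc-triples with `c` and `max a b` in `A` satisfy `T (a, b, c) < 0`, that is `rad (abc) > c`; the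
sets `A` may have `X ^ (41 / 56 - ε)` elements up to `X`. More generally
`T (a, b, c) < -η √(log c) - K / √(log c)`, that is `rad (abc) > exp K * c ^ (1 + η)`, if
`f (η) < 2 γ`, with the explicit exponent `f` of the starting files.
-/

set_option autoImplicit false

namespace Pool.Agent.Results.MP_4ab349_nt.RandomSets

open Filter Topology MeasureTheory

/-- the product of the primes dividing `n` -/
def rad (n : ℕ) : ℕ := ∏ p ∈ n.primeFactors, p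

/-- `T(a, b, c) = log (c / rad(abc)) / √(log c)` -/
noncomputable def T (a b c : ℕ) : ℝ :=
  Real.log ((c : ℝ) / (rad (a * b * c) : ℝ)) / Real.sqrt (Real.log c)

/-- increasing from `15 / 28` for `η = 0` to `1` for `η = 7 / 9`: equal to `5 (10 η + 9) / 84` for
`η ≤ 1 / 2` and to `(9 η + 8) / 15` for `η > 1 / 2` -/
noncomputable def f (η : ℝ) : ℝ := if η ≤ 1 / 2 then 5 * (10 * η + 9) / 84 else (9 * η + 8) / 15

/-- `n` belongs to the random set `A` with probability at most `C * n ^ (-γ)` -/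
def Sparse {Ω : Type} [MeasurableSpace Ω] (P : Measure Ω) (A : Ω → Set ℕ) (γ C : ℝ) : Prop :=
  ∀ n : ℕ, 0 < n → P {ω | n ∈ A ω} ≤ ENNReal.ofReal (C * (n : ℝ) ^ (-γ))

/-- two different integers `m`, `n` belong to the random set `A` with probability at most
`C * (m * n) ^ (-γ)` -/
def PairSparse {Ω : Type} [MeasurableSpace Ω] (P : Measure Ω) (A : Ω → Set ℕ) (γ C : ℝ) : Prop :=
  ∀ m n : ℕ, 0 < m → 0 < n → m ≠ n →
    P {ω | m ∈ A ω ∧ n ∈ A ω} ≤ ENNReal.ofReal (C * ((m : ℝ) * n) ^ (-γ))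

/-- the abc-triples `(a, b, c)` (positive, coprime, `a + b = c`), given by `t = (a, c)`, with
`T (a, b, c) ≥ -η √(log c) - K / √(log c)` -/
def Bad (η K : ℝ) (t : ℕ × ℕ) : Prop :=
  0 < t.1 ∧ t.1 < t.2 ∧ Nat.Coprime t.1 t.2 ∧
    - η * Real.sqrt (Real.log (t.2 : ℝ)) - K / Real.sqrt (Real.log (t.2 : ℝ)) ≤
      T t.1 (t.2 - t.1) t.2

lemma Fx_eq (η : ℝ) (h0 : 0 ≤ η) (h1 : η < 7 / 9) : Pool.Agent.W221.ABC7.Fx (1 + η) = f η := by
  unfold Pool.Agent.W221.ABC7.Fx f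
  rcases h0.eq_or_lt with h | h
  · subst h
    norm_num
  · rw [if_neg (show ¬ (1 + η ≤ 2 / 3) by linarith), if_neg (show ¬ (1 + η ≤ 1) by linarith)]
    by_cases h2 : η ≤ 1 / 2
    · rw [if_pos (show 1 + η ≤ 3 / 2 by linarith), if_pos h2]
      ring
    · rw [if_neg (show ¬ (1 + η ≤ 3 / 2) by linarith), if_pos (show 1 + η ≤ 16 / 9 by linarith), if_neg h2]
      ring

lemma rad_pos (n : ℕ) : 0 < rad n :=
  Finset.prod_pos fun _ hp => (Nat.prime_of_mem_primeFactors hp).pos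

lemma rad_le_of_bad {η K : ℝ} {t : ℕ × ℕ} (h : Bad η K t) :
    (rad (t.1 * (t.2 - t.1) * t.2) : ℝ) ≤ Real.exp K * (t.2 : ℝ) ^ (1 + η) := by
  obtain ⟨h1, h2, h3, h4⟩ := h
  have hc : (1 : ℝ) < (t.2 : ℝ) := by exact_mod_cast (by omega : 1 < t.2)
  have hc0 : (0 : ℝ) < (t.2 : ℝ) := by linarith
  have hl : 0 < Real.log (t.2 : ℝ) := Real.log_pos hc
  have hs : 0 < Real.sqrt (Real.log (t.2 : ℝ)) := Real.sqrt_pos.mpr hl
  have hr : (0 : ℝ) < (rad (t.1 * (t.2 - t.1) * t.2) : ℝ) := by exact_mod_cast rad_pos _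
  by_contra hcon
  push Not at hcon
  have h5 := Real.log_lt_log (by positivity) hcon
  rw [Real.log_mul (Real.exp_pos K).ne' (Real.rpow_pos_of_pos hc0 _).ne', Real.log_exp,
    Real.log_rpow hc0] at h5
  unfold T at h4
  rw [Real.log_div hc0.ne' hr.ne', le_div_iff₀ hs] at h4
  have hss : Real.sqrt (Real.log (t.2 : ℝ)) * Real.sqrt (Real.log (t.2 : ℝ)) =
      Real.log (t.2 : ℝ) := Real.mul_self_sqrt hl.le
  have h6 : (-η * Real.sqrt (Real.log (t.2 : ℝ)) - K / Real.sqrt (Real.log (t.2 : ℝ))) *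
      Real.sqrt (Real.log (t.2 : ℝ)) = -η * Real.log (t.2 : ℝ) - K := by
    rw [sub_mul, div_mul_cancel₀ _ hs.ne', mul_assoc, hss]
  rw [h6] at h4
  linarith

/-- the count of the exceptions -/
lemma count_bad {η K : ℝ} (h0 : 0 ≤ η) (h1 : η < 7 / 9) :
    ∀ ε : ℝ, 0 < ε → ∃ C : ℝ, ∀ B : ℝ, 1 ≤ B →
      {t : ℕ × ℕ | Bad η K t ∧ (t.2 : ℝ) ≤ B}.Finite ∧
      (({t : ℕ × ℕ | Bad η K t ∧ (t.2 : ℝ) ≤ B}.ncard : ℕ) : ℝ) ≤
        C * B ^ (f η + ε) := by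
  intro ε hε
  obtain ⟨C, hC⟩ := Pool.Agent.R479.DA.sm_count (Real.exp K) (1 + η) (by linarith) ε hε
  refine ⟨C, fun B hB => ?_⟩
  obtain ⟨h2, h3⟩ := hC B hB
  have hsub : {t : ℕ × ℕ | Bad η K t ∧ (t.2 : ℝ) ≤ B} ⊆
      {t | t ∈ Pool.Agent.R479.DA.Sm (Real.exp K) (1 + η) ∧ (t.2 : ℝ) ≤ B} := by
    rintro ⟨a, c⟩ ⟨h4, h5⟩
    have h6 := rad_le_of_bad h4
    obtain ⟨h7, h8, h9, -⟩ := h4
    refine ⟨⟨h7, h8, h9, ?_⟩, h5⟩
    simp only at h6 ⊢
    rw [show a * c * (c - a) = a * (c - a) * c by ring]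
    exact h6
  refine ⟨h2.subset hsub, ?_⟩
  rw [Fx_eq η h0 h1] at h3
  exact le_trans (by exact_mod_cast Set.ncard_le_ncard hsub h2) h3

lemma f_nonneg {η : ℝ} (h0 : 0 ≤ η) : 0 ≤ f η := by
  unfold f
  split_ifs <;> positivity

lemma Bad.one_le {η K : ℝ} {t : ℕ × ℕ} (h : Bad η K t) : (1 : ℝ) ≤ (t.2 : ℝ) := by
  obtain ⟨h1, h2, -⟩ := h
  exact_mod_cast (by omega : 1 ≤ t.2)

/-- the sum of `c ^ (-p)` over the exceptional triples converges for `p > f η` -/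
lemma summable_bad {η K p : ℝ} (h0 : 0 ≤ η) (h1 : η < 7 / 9) (hp : f η < p) :
    Summable fun t : {t : ℕ × ℕ // Bad η K t} => (t.1.2 : ℝ) ^ (-p) := by
  obtain ⟨C, hC⟩ := count_bad (K := K) h0 h1 ((p - f η) / 2) (by linarith)
  have hf := f_nonneg h0
  refine Pool.Agent.R479.DA.summable_heights (fun t : {t : ℕ × ℕ // Bad η K t} => (t.1.2 : ℝ))
    (fun t => t.2.one_le) (s := f η + (p - f η) / 2) (p := p) (C := C) (by linarith)
    (by linarith) ?_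
  intro Z hZ
  obtain ⟨h3, h4⟩ := hC Z hZ
  have hinj : Set.InjOn (fun t : {t : ℕ × ℕ // Bad η K t} => t.1)
      {t : {t : ℕ × ℕ // Bad η K t} | (t.1.2 : ℝ) ≤ Z} := Subtype.val_injective.injOn
  have hmaps : Set.MapsTo (fun t : {t : ℕ × ℕ // Bad η K t} => t.1)
      {t : {t : ℕ × ℕ // Bad η K t} | (t.1.2 : ℝ) ≤ Z}
      {t : ℕ × ℕ | Bad η K t ∧ (t.2 : ℝ) ≤ Z} := fun t ht => ⟨t.2, ht⟩
  refine ⟨h3.of_injOn hmaps hinj, ?_⟩
  have h5 := Set.ncard_le_ncard_of_injOn _ hmaps hinj h3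
  exact le_trans (by exact_mod_cast h5) h4

/-- finitely many exceptions `T ≥ 0` of a family of triples give the bound of the question for the
others -/
lemma exists_bound {R : ℕ × ℕ → Prop} (hfin : {t : ℕ × ℕ | Bad 0 0 t ∧ R t}.Finite) :
    ∃ C₀ : ℝ, ∀ a b c : ℕ, 0 < a → 0 < b → Nat.Coprime a b → a + b = c → C₀ < c → R (a, c) →
      (c : ℝ) ^ (1 - 1 / Real.sqrt (Real.log (c : ℝ))) < (rad (a * b * c) : ℝ) := by
  obtain ⟨C₀, hC⟩ := (hfin.image fun x => (x.2 : ℝ)).bddAbove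
  refine ⟨C₀, fun a b c ha hb hab habc hc hR => ?_⟩
  by_contra hcon
  push Not at hcon
  have hc2 : 1 < c := by omega
  have hc1 : (1 : ℝ) < (c : ℝ) := by exact_mod_cast hc2
  have hc0 : (0 : ℝ) < (c : ℝ) := by linarith
  have hl : 0 < Real.log (c : ℝ) := Real.log_pos hc1
  have hsq : 0 < Real.sqrt (Real.log (c : ℝ)) := Real.sqrt_pos.mpr hl
  have hr : (0 : ℝ) < (rad (a * b * c) : ℝ) := by exact_mod_cast rad_pos _
  have hle : (rad (a * b * c) : ℝ) ≤ c := by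
    refine hcon.trans ?_
    calc (c : ℝ) ^ (1 - 1 / Real.sqrt (Real.log (c : ℝ))) ≤ (c : ℝ) ^ (1 : ℝ) := by
          apply Real.rpow_le_rpow_of_exponent_le hc1.le
          have : 0 ≤ 1 / Real.sqrt (Real.log (c : ℝ)) := by positivity
          linarith
      _ = c := Real.rpow_one _
  have hbad : Bad 0 0 (a, c) := by
    refine ⟨ha, by simp only; omega, ?_, ?_⟩
    · simp only
      rw [← habc]
      simpa using hab
    · simp only
      have hb' : c - a = b := by omega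
      rw [hb']
      simp only [neg_zero, zero_mul, zero_div, sub_zero]
      unfold T
      refine div_nonneg (Real.log_nonneg ?_) hsq.le
      rw [le_div_iff₀ hr, one_mul]
      exact hle
  have h2 := hC ⟨(a, c), ⟨hbad, hR⟩, rfl⟩
  simp only at h2
  linarith

lemma f_zero_le {η : ℝ} (h0 : 0 ≤ η) : f 0 ≤ f η := by
  unfold f
  split_ifs <;> linarith

/-- **Theorem.** Let `A` be a random set of positive integers, `0 ≤ η < 7 / 9` and `K` real
(`f 0 = 15 / 28`).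

(1) Let two different integers `m`, `n` belong to `A` with probability at most `C (m n) ^ (-γ)`. If
`f η < 2 γ`, then almost surely there is `C₀` such that `rad (abc) > c ^ (1 - 1 / √(log c))` for
all abc-triples with `c > C₀`, `c ∈ A` and `max a b ∈ A`, and only finitely many abc-triples with
`c ∈ A` and `max a b ∈ A` have `T (a, b, c) ≥ -η √(log c) - K / √(log c)`. If `f η + ζ < 2 γ`, the
probability that one of these triples has `c ≥ y` is at most `B y ^ (-ζ)`.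

(2) Let `n` belong to `A` with probability at most `C n ^ (-γ)` (without any condition on pairs). If
`f η < γ`, the same holds for the abc-triples with `c ∈ A` or `max a b ∈ A`; if `f η + ζ < γ`, the
probability that one of them with `T (a, b, c) ≥ -η √(log c) - K / √(log c)` has `c ≥ y` is at most
`B y ^ (-ζ)`. -/
theorem result (Ω : Type) [MeasurableSpace Ω] (P : Measure Ω) (A : Ω → Set ℕ) (γ C η K : ℝ)
    (hη : 0 ≤ η) (hη1 : η < 7 / 9) :
    (PairSparse P A γ C →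
      (f η < 2 * γ → ∀ᵐ ω ∂P,
        (∃ C₀ : ℝ, ∀ a b c : ℕ, 0 < a → 0 < b → Nat.Coprime a b → a + b = c → C₀ < c →
          c ∈ A ω → max a b ∈ A ω →
          (c : ℝ) ^ (1 - 1 / Real.sqrt (Real.log (c : ℝ))) < (rad (a * b * c) : ℝ)) ∧
        {t : ℕ × ℕ | Bad η K t ∧ t.2 ∈ A ω ∧ max t.1 (t.2 - t.1) ∈ A ω}.Finite) ∧
      ∀ ζ : ℝ, 0 ≤ ζ → f η + ζ < 2 * γ → ∃ B : ℝ, ∀ y : ℝ, 1 ≤ y →
        P {ω | ∃ t : ℕ × ℕ, Bad η K t ∧ y ≤ (t.2 : ℝ) ∧ t.2 ∈ A ω ∧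
          max t.1 (t.2 - t.1) ∈ A ω} ≤ ENNReal.ofReal (B * y ^ (-ζ))) ∧
    (Sparse P A γ C →
      (f η < γ → ∀ᵐ ω ∂P,
        (∃ C₀ : ℝ, ∀ a b c : ℕ, 0 < a → 0 < b → Nat.Coprime a b → a + b = c → C₀ < c →
          (c ∈ A ω ∨ max a b ∈ A ω) →
          (c : ℝ) ^ (1 - 1 / Real.sqrt (Real.log (c : ℝ))) < (rad (a * b * c) : ℝ)) ∧
        {t : ℕ × ℕ | Bad η K t ∧ (t.2 ∈ A ω ∨ max t.1 (t.2 - t.1) ∈ A ω)}.Finite) ∧
      ∀ ζ : ℝ, 0 ≤ ζ → f η + ζ < γ → ∃ B : ℝ, ∀ y : ℝ, 1 ≤ y →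
        P {ω | ∃ t : ℕ × ℕ, Bad η K t ∧ y ≤ (t.2 : ℝ) ∧
          (t.2 ∈ A ω ∨ max t.1 (t.2 - t.1) ∈ A ω)} ≤ ENNReal.ofReal (B * y ^ (-ζ))) := by
  have hu : ∀ (η K : ℝ) (t : ℕ × ℕ), Bad η K t → (t.2 : ℝ) ≤ 2 * ((t.2 : ℕ) : ℝ) := by
    intro η K t ht
    have := ht.one_le
    linarith
  have hv : ∀ (η K : ℝ) (t : ℕ × ℕ), Bad η K t →
      (t.2 : ℝ) ≤ 2 * ((max t.1 (t.2 - t.1) : ℕ) : ℝ) := by
    rintro η K t ⟨h1, h2, -⟩
    have h4 : t.2 ≤ 2 * max t.1 (t.2 - t.1) := by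
      have := le_max_left t.1 (t.2 - t.1)
      have := le_max_right t.1 (t.2 - t.1)
      omega
    exact_mod_cast h4
  have huv : ∀ (η K : ℝ) (t : ℕ × ℕ), Bad η K t → t.2 ≠ max t.1 (t.2 - t.1) := by
    rintro η K t ⟨h1, h2, -⟩
    rcases max_choice t.1 (t.2 - t.1) with h | h <;> rw [h] <;> omega
  have hf0 := f_zero_le hη
  have hfn := f_nonneg hη
  constructor
  · intro hA
    have hA' : Pool.Agent.R909.RS.PairSparse P (fun n : ℕ => (n : ℝ)) A γ C := by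
      intro m n hm hn hmn
      exact hA m n (Nat.cast_pos.1 hm) (Nat.cast_pos.1 hn) hmn
    have key : ∀ η K : ℝ, 0 ≤ η → η < 7 / 9 → ∀ ζ : ℝ, 0 ≤ ζ → f η + ζ < 2 * γ →
        (∀ᵐ ω ∂P, {t : ℕ × ℕ | Bad η K t ∧
          (t.2 ∈ A ω ∧ max t.1 (t.2 - t.1) ∈ A ω)}.Finite) ∧ ∃ B : ℝ, ∀ y : ℝ, 1 ≤ y →
        P {ω | ∃ t : ℕ × ℕ, Bad η K t ∧ y ≤ (t.2 : ℝ) ∧
          (t.2 ∈ A ω ∧ max t.1 (t.2 - t.1) ∈ A ω)} ≤ ENNReal.ofReal (B * y ^ (-ζ)) := by
      intro η K h0 h1 ζ hζ h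
      have hfn := f_nonneg h0
      exact Pool.Agent.R909.RS.pair (T := ℕ × ℕ) (H := fun t => (t.2 : ℝ)) hA'
        (Q := fun t => Bad η K t) (fun t ht => ht.one_le)
        (u := fun t => t.2) (v := fun t => max t.1 (t.2 - t.1)) (K := 2) (by norm_num)
        (hu η K) (hv η K) (huv η K)
        (by linarith) (p := 2 * γ - ζ) hζ (by linarith) (summable_bad h0 h1 (by linarith))
    refine ⟨fun h => ?_, fun ζ hζ h => (key η K hη hη1 ζ hζ h).2⟩
    filter_upwards [(key η K hη hη1 0 le_rfl (by linarith)).1,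
      (key 0 0 le_rfl (by norm_num) 0 le_rfl (by linarith)).1] with ω hω hω0
    refine ⟨?_, hω⟩
    obtain ⟨C₀, hC⟩ := exists_bound hω0
    refine ⟨C₀, fun a b c ha hb hab habc hc h1 h2 => hC a b c ha hb hab habc hc ⟨h1, ?_⟩⟩
    simp only
    rwa [show c - a = b by omega]
  · intro hA
    have hA' : Pool.Agent.R909.RS.Sparse P (fun n : ℕ => (n : ℝ)) A γ C := by
      intro n hn
      exact hA n (Nat.cast_pos.1 hn)
    have key : ∀ η K : ℝ, 0 ≤ η → η < 7 / 9 → ∀ ζ : ℝ, 0 ≤ ζ → f η + ζ < γ →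
        ∀ u : ℕ × ℕ → ℕ, (∀ t, Bad η K t → (t.2 : ℝ) ≤ 2 * ((u t : ℕ) : ℝ)) →
        (∀ᵐ ω ∂P, {t : ℕ × ℕ | Bad η K t ∧ u t ∈ A ω}.Finite) ∧
        ∃ B : ℝ, ∀ y : ℝ, 1 ≤ y →
        P {ω | ∃ t : ℕ × ℕ, Bad η K t ∧ y ≤ (t.2 : ℝ) ∧ u t ∈ A ω} ≤
          ENNReal.ofReal (B * y ^ (-ζ)) := by
      intro η K h0 h1 ζ hζ h u hu
      have hfn := f_nonneg h0
      exact Pool.Agent.R909.RS.single (T := ℕ × ℕ) (H := fun t => (t.2 : ℝ)) hA'
        (Q := fun t => Bad η K t) (fun t ht => ht.one_le)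
        (u := u) (K := 2) (by norm_num) hu (by linarith) (p := γ - ζ) hζ (by linarith)
        (summable_bad h0 h1 (by linarith))
    have fin : ∀ η K : ℝ, 0 ≤ η → η < 7 / 9 → f η < γ →
        ∀ᵐ ω ∂P, {t : ℕ × ℕ | Bad η K t ∧
          (t.2 ∈ A ω ∨ max t.1 (t.2 - t.1) ∈ A ω)}.Finite := by
      intro η K h0 h1 h
      filter_upwards [(key η K h0 h1 0 le_rfl (by linarith) _ (hu η K)).1,
        (key η K h0 h1 0 le_rfl (by linarith) _ (hv η K)).1] with ω h1 h2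
      refine (h1.union h2).subset ?_
      rintro t ⟨h3, h4 | h4⟩
      · exact Or.inl ⟨h3, h4⟩
      · exact Or.inr ⟨h3, h4⟩
    refine ⟨fun h => ?_, fun ζ hζ h => ?_⟩
    · filter_upwards [fin η K hη hη1 h, fin 0 0 le_rfl (by norm_num) (by linarith)] with ω hω hω0
      refine ⟨?_, hω⟩
      obtain ⟨C₀, hC⟩ := exists_bound hω0
      refine ⟨C₀, fun a b c ha hb hab habc hc h1 => hC a b c ha hb hab habc hc ?_⟩
      simp only
      rwa [show c - a = b by omega]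
    · obtain ⟨B, hB⟩ := (key η K hη hη1 ζ hζ h _ (hu η K)).2
      obtain ⟨B', hB'⟩ := (key η K hη hη1 ζ hζ h _ (hv η K)).2
      refine ⟨|B| + |B'|, fun y hy => ?_⟩
      have hy0 : 0 ≤ y ^ (-ζ) := Real.rpow_nonneg (by linarith) _
      have h6 : {ω | ∃ t : ℕ × ℕ, Bad η K t ∧ y ≤ (t.2 : ℝ) ∧
          (t.2 ∈ A ω ∨ max t.1 (t.2 - t.1) ∈ A ω)} ⊆
          {ω | ∃ t : ℕ × ℕ, Bad η K t ∧ y ≤ (t.2 : ℝ) ∧ t.2 ∈ A ω} ∪
          {ω | ∃ t : ℕ × ℕ, Bad η K t ∧ y ≤ (t.2 : ℝ) ∧ max t.1 (t.2 - t.1) ∈ A ω} := by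
        rintro ω ⟨t, h1, h2, h3 | h3⟩
        · exact Or.inl ⟨t, h1, h2, h3⟩
        · exact Or.inr ⟨t, h1, h2, h3⟩
      refine (measure_mono h6).trans ((measure_union_le _ _).trans ?_)
      refine (add_le_add (hB y hy) (hB' y hy)).trans ?_
      have h7 : ENNReal.ofReal (B * y ^ (-ζ)) ≤ ENNReal.ofReal (|B| * y ^ (-ζ)) :=
        ENNReal.ofReal_le_ofReal (mul_le_mul_of_nonneg_right (le_abs_self B) hy0)
      have h8 : ENNReal.ofReal (B' * y ^ (-ζ)) ≤ ENNReal.ofReal (|B'| * y ^ (-ζ)) :=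
        ENNReal.ofReal_le_ofReal (mul_le_mul_of_nonneg_right (le_abs_self B') hy0)
      refine (add_le_add h7 h8).trans (le_of_eq ?_)
      rw [← ENNReal.ofReal_add (by positivity) (by positivity), add_mul]

end Pool.Agent.Results.MP_4ab349_nt.RandomSets
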