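import Pool.Agent.R942.AX.Exp

/-!
# `rad (abc) > c ^ (1 - 1 / √(log c))` for the abc-triples near typical points, for arbitrary maps

An abc-triple is given by `t = (a, b)` with `a, b` coprime and positive, and `c = a + b`. The violations of
the inequality `rad (abc) > c ^ (1 - 1 / √(log c))` are among the triples with `rad (abc) ≤ c`, and more
generally we consider the set `Bad K η` of the triples with `rad (abc) ≤ K c ^ (1 + η)`, `0 ≤ η < 7 / 9`.
Let `f (η)` be the explicit exponent below, `f (0) = 15 / 28`, `f (η) < 1`.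

(1) Let `μ` be any outer measure on a set `X` (for instance a probability measure), and let countably many
subsets `B t n` of `X` be attached to each triple `t`, with `∑ n, μ (B t n) ≤ C c ^ (-δ)`, `δ > f (η)`. Then
`μ`-almost every `x` lies in `B t n` for only finitely many pairs `(t, n)` with `t` in `Bad K η`.

(2) If `X` is a metric space and `∑ n, diam (B t n) ^ s ≤ C c ^ (-δ)`, `δ > f (η)`, then this holds for all `x`
outside a set of Hausdorff dimension at most `s`.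

(3) Let `φ` be any map from the abc-triples to a metric space `X` and `τ > 0`. For all `x` in `X` outside a set
of Hausdorff dimension at most `15 / (28 τ)` all but finitely many of the abc-triples with
`dist (φ (t), x) ≤ c ^ (-τ)` satisfy the inequality of the question; with `f (η)` in place of `15 / 28` they
satisfy `rad (abc) > K c ^ (1 + η)`.

(4) Let `φ` be any map from the abc-triples to the real numbers. For almost every real `x` and every
`τ > 15 / 28` all but finitely many of the abc-triples with `|φ (t) - x| ≤ c ^ (-τ)` satisfy the inequality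
of the question.
-/

set_option autoImplicit false

namespace Pool.Agent.Results.MP_4ab349_nt.TypicalPoints

open Pool.Agent.R942.AX2 MeasureTheory

/-- the inequality of the question -/
def Holds (t : ℕ × ℕ) : Prop := ht t ^ (1 - 1 / Real.sqrt (Real.log (ht t))) < R t

lemma f_zero : f 0 = 15 / 28 := by
  unfold f
  rw [if_pos (by norm_num)]
  norm_num

theorem part_four (φ : ℕ × ℕ → ℝ) : ∀ᵐ x : ℝ, ∀ τ : ℝ, 15 / 28 < τ →
    {t : ℕ × ℕ | Triple t ∧ |φ t - x| ≤ ht t ^ (-τ) ∧ ¬ Holds t}.Finite := by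
  have h : ∀ k : ℕ, ∀ᵐ x : ℝ, ¬ {p : (ℕ × ℕ) × ℕ | p.1 ∈ Bad 1 0 ∧
      x ∈ (if p.2 = 0 then Set.Icc (φ p.1 - ht p.1 ^ (-(15 / 28 + 1 / ((k : ℝ) + 1))))
        (φ p.1 + ht p.1 ^ (-(15 / 28 + 1 / ((k : ℝ) + 1)))) else ∅)}.Infinite := by
    intro k
    have hk0 : (0 : ℝ) < 1 / ((k : ℝ) + 1) := by positivity
    have h1 := ae_bad (volume : Measure ℝ).toOuterMeasure (fun t n => if n = 0 then
      Set.Icc (φ t - ht t ^ (-(15 / 28 + 1 / ((k : ℝ) + 1))))
        (φ t + ht t ^ (-(15 / 28 + 1 / ((k : ℝ) + 1)))) else ∅) 1 0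
        (15 / 28 + 1 / ((k : ℝ) + 1)) 2 le_rfl (by norm_num) (by rw [f_zero]; linarith) ?_
    · rw [ae_iff]
      simp only [not_not]
      exact h1
    · intro t ht'
      rw [tsum_eq_single 0 (fun n hn => by rw [if_neg hn]; exact measure_empty), if_pos rfl]
      show volume (Set.Icc _ _) ≤ _
      rw [Real.volume_Icc]
      apply ENNReal.ofReal_le_ofReal
      linarith
  filter_upwards [ae_all_iff.2 h] with x hx τ hτ
  obtain ⟨k, hk⟩ := exists_nat_one_div_lt (sub_pos.2 hτ)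
  have h1 := hx k
  rw [Set.not_infinite] at h1
  refine (h1.image Prod.fst).subset ?_
  rintro t ⟨h2, h3, h4⟩
  refine ⟨(t, 0), ⟨viol_bad h2 h4, ?_⟩, rfl⟩
  simp only [if_pos]
  have h5 : ht t ^ (-τ) ≤ ht t ^ (-(15 / 28 + 1 / ((k : ℝ) + 1))) :=
    Real.rpow_le_rpow_of_exponent_le (le_trans one_le_two (two_le_ht h2)) (by linarith)
  rw [abs_le] at h3
  constructor <;> linarith [h3.1, h3.2]

theorem result :
    (∀ (X : Type) (μ : OuterMeasure X) (B : ℕ × ℕ → ℕ → Set X) (K η δ C : ℝ), 0 ≤ η → η < 7 / 9 →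
      f η < δ → (∀ t, Triple t → ∑' n, μ (B t n) ≤ ENNReal.ofReal (C * ht t ^ (-δ))) →
      μ {x : X | {p : (ℕ × ℕ) × ℕ | p.1 ∈ Bad K η ∧ x ∈ B p.1 p.2}.Infinite} = 0) ∧
    (∀ (X : Type) [MetricSpace X] (B : ℕ × ℕ → ℕ → Set X) (K η s δ C : ℝ), 0 ≤ η → η < 7 / 9 →
      0 < s → f η < δ →
      (∀ t, Triple t → ∑' n, Metric.ediam (B t n) ^ s ≤ ENNReal.ofReal (C * ht t ^ (-δ))) →
      dimH {x : X | {p : (ℕ × ℕ) × ℕ | p.1 ∈ Bad K η ∧ x ∈ B p.1 p.2}.Infinite} ≤
        ENNReal.ofReal s) ∧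
    (∀ (X : Type) [MetricSpace X] (φ : ℕ × ℕ → X) (τ : ℝ), 0 < τ →
      dimH {x : X | {t : ℕ × ℕ | Triple t ∧ dist (φ t) x ≤ ht t ^ (-τ) ∧ ¬ Holds t}.Infinite} ≤
        ENNReal.ofReal (15 / 28 / τ) ∧
      ∀ K η : ℝ, 0 ≤ η → η < 7 / 9 →
        dimH {x : X | {t : ℕ × ℕ | t ∈ Bad K η ∧ dist (φ t) x ≤ ht t ^ (-τ)}.Infinite} ≤
          ENNReal.ofReal (f η / τ)) ∧
    (∀ φ : ℕ × ℕ → ℝ, ∀ᵐ x : ℝ, ∀ τ : ℝ, 15 / 28 < τ →
      {t : ℕ × ℕ | Triple t ∧ |φ t - x| ≤ ht t ^ (-τ) ∧ ¬ Holds t}.Finite) := by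
  refine ⟨fun X μ B K η δ C h0 h1 h2 h => ae_bad μ B K η δ C h0 h1 h2 h,
    fun X _ B K η s δ C h0 h1 h2 h3 h => dim_bad B K η s δ C h0 h1 h2 h3 h,
    fun X _ φ τ hτ => ⟨?_, fun K η h0 h1 => dim_map φ K η τ h0 h1 hτ⟩, part_four⟩
  have h := dim_map φ 1 0 τ le_rfl (by norm_num) hτ
  rw [f_zero] at h
  refine le_trans (dimH_mono fun x hx => ?_) h
  simp only [Set.mem_ofPred_eq] at hx ⊢
  intro hfin
  apply hx
  exact hfin.subset fun t ht' => ⟨viol_bad ht'.1 ht'.2.2, ht'.2.1⟩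

end Pool.Agent.Results.MP_4ab349_nt.TypicalPoints
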